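import Mathlib
import Pool.Agent.Lib.helper29.RieszDefs

set_option autoImplicit false

namespace Pool.Agent.Results.MP_9d6809_an.LevelThree

open MeasureTheory Pool.Agent.Lib.H29.Riesz Polynomial
open scoped ComplexConjugate InnerProductSpace

lemma riesz_shift {ι H : Type} [NormedAddCommGroup H] [InnerProductSpace ℂ H] [CompleteSpace H]
    (e : HilbertBasis ι ℂ H) (σ : ι ≃ ι) :
    IsRieszBasis fun i => e i + e (σ i) + e (σ (σ (σ i))) := by
  classical
  have ho : Orthonormal ℂ (e ∘ σ) := e.orthonormal.comp _ σ.injective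
  let e' := HilbertBasis.mk ho (by rw [σ.surjective.range_comp]; exact e.dense_span.ge)
  let τ : H ≃ₗᵢ[ℂ] H := e.repr.trans e'.repr.symm
  have hτ : ∀ i, τ (e i) = e (σ i) := fun i => by
    simp only [τ, LinearIsometryEquiv.trans_apply, e.repr_self, e'.repr_symm_single]
    exact congrFun (HilbertBasis.coe_mk ho _) i
  let u : unitary (H →L[ℂ] H) := Unitary.linearIsometryEquiv.symm τ
  have hu : ∀ x, (u : H →L[ℂ] H) x = τ x := fun x => rfl
  have hunit : IsUnit (aeval (u : H →L[ℂ] H) (X ^ 3 + X + 1 : ℂ[X])) := by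
    by_contra h
    rw [← spectrum.zero_mem_iff ℂ, spectrum.map_polynomial_aeval_of_degree_pos _ _
      (by rw [show (X ^ 3 + X + 1 : ℂ[X]).degree = 3 by compute_degree!]; norm_num)] at h
    obtain ⟨z, hz, h0⟩ := h
    have h1 : ‖z‖ = 1 := by simpa using Unitary.spectrum_subset_circle u hz
    simp only [eval_add, eval_pow, eval_X, eval_one] at h0
    have h2 : z * conj z = 1 := by rw [Complex.mul_conj, Complex.normSq_eq_norm_sq, h1]; simp
    have h3 : conj z ^ 3 + conj z + 1 = 0 := by simpa using congrArg conj h0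
    have h4 : 1 + z ^ 2 + z ^ 3 = 0 := by
      linear_combination z ^ 3 * h3 - ((z * conj z) ^ 2 + z * conj z + 1 + z ^ 2) * h2
    have h5 : (3 : ℂ) = 0 := by
      linear_combination (2 - z - 2 * z ^ 2) * h0 + (1 - z + 2 * z ^ 2) * h4
    norm_num at h5
  obtain ⟨w, hw⟩ := hunit
  refine ⟨e, ContinuousLinearEquiv.unitsEquiv ℂ H w, fun i => ?_⟩
  rw [ContinuousLinearEquiv.unitsEquiv_apply, hw]
  simp only [map_add, map_pow, aeval_X, map_one]
  simp only [add_apply, pow_succ, pow_zero, mul_apply_eq_comp, one_apply_eq_self, hu, hτ]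
  abel

/-- exponential -/
noncomputable def ex (g x : ℝ) : ℂ := Complex.exp (2 * Real.pi * Complex.I * ((g * x : ℝ) : ℂ))

lemma norm_ex (g x : ℝ) : ‖ex g x‖ = 1 := by
  rw [ex, show 2 * (Real.pi : ℂ) * Complex.I * ((g * x : ℝ) : ℂ) =
    ((2 * Real.pi * (g * x) : ℝ) : ℂ) * Complex.I by push_cast; ring]
  exact Complex.norm_exp_ofReal_mul_I _

lemma cont_ex (g : ℝ) : Continuous (ex g) := by unfold ex; fun_prop

/-- atoms -/
noncomputable def atom (n : ℤ) (g x : ℝ) : ℂ :=
  ex g x * (Set.Ico (n : ℝ) (n + 1)).indicator (fun _ => 1) x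

lemma mem_atom (n : ℤ) (g : ℝ) : MemLp (atom n g) 2 volume := by
  have mi : MemLp ((Set.Ico (n : ℝ) (n + 1)).indicator fun _ => (1 : ℂ)) 2 volume :=
    memLp_indicator_const 2 measurableSet_Ico 1 (Or.inr (by simp))
  exact mi.of_le ((cont_ex g).aestronglyMeasurable.mul mi.1)
    (Filter.Eventually.of_forall fun x => by rw [atom, norm_mul, norm_ex, one_mul])

lemma inner_atom (n : ℤ) (g : ℝ) (f : Lp ℂ 2 (volume : Measure ℝ)) :
    ⟪(mem_atom n g).toLp _, f⟫_ℂ = ∫ x in (n : ℝ)..(n + 1), conj (ex g x) * f x := by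
  rw [intervalIntegral.integral_of_le (by linarith), integral_Ioc_eq_integral_Ioo,
    ← integral_Ico_eq_integral_Ioo, ← integral_indicator measurableSet_Ico, L2.inner_def]
  refine integral_congr_ae ?_
  filter_upwards [(mem_atom n g).coeFn_toLp] with x hx
  rw [hx, RCLike.inner_apply, atom]
  by_cases h : x ∈ Set.Ico (n : ℝ) (n + 1) <;> simp [h, mul_comm]

lemma int_ex (n k : ℤ) : ∫ x in (n : ℝ)..(n + 1), ex k x = if k = 0 then 1 else 0 := by
  split_ifs with h
  · simp [h, ex]
  · have hc : 2 * Real.pi * Complex.I * k ≠ 0 := by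
      simp [h, Real.pi_ne_zero]
    have : ∀ x, ex k x = Complex.exp (2 * Real.pi * Complex.I * k * x) := fun x => by
      rw [ex]; congr 1; push_cast; ring
    simp only [this]
    rw [integral_exp_mul_complex hc, show 2 * (Real.pi : ℂ) * Complex.I * k * (((n : ℝ) + 1 : ℝ) : ℂ) =
      2 * Real.pi * Complex.I * k * ((n : ℝ) : ℂ) + k * (2 * Real.pi * Complex.I) by push_cast; ring,
      Complex.exp_add, Complex.exp_int_mul_two_pi_mul_I]
    simp

/-- the orthonormal system -/
noncomputable def sys (p : ℤ × Set.range (Int.cast : ℤ → ℝ)) : Lp ℂ 2 (volume : Measure ℝ) :=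
  (mem_atom p.1 p.2).toLp _

lemma orth_sys : Orthonormal ℂ sys := by
  classical
  rw [orthonormal_iff_ite]
  rintro ⟨n, _, k, rfl⟩ ⟨m, _, l, rfl⟩
  rw [sys, inner_atom, intervalIntegral.integral_of_le (by linarith), integral_Ioc_eq_integral_Ioo,
    ← integral_Ico_eq_integral_Ioo]
  have e : ∫ x in Set.Ico (n : ℝ) (n + 1), conj (ex k x) * (sys (m, ⟨l, l, rfl⟩) x) =
      ∫ x in Set.Ico (n : ℝ) (n + 1), (if n = m then ex (l - k : ℤ) x else 0) := by
    refine setIntegral_congr_ae measurableSet_Ico ?_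
    filter_upwards [(mem_atom m l).coeFn_toLp] with x hx hm
    rw [sys, hx, atom]
    split_ifs with h
    · subst h
      rw [Set.indicator_of_mem hm, mul_one, ex, ex, ex, ← Complex.exp_conj, ← Complex.exp_add]
      congr 1
      simp only [map_mul, Complex.conj_ofReal, Complex.conj_I, map_ofNat]
      push_cast
      ring
    · rw [Set.indicator_of_notMem, mul_zero, mul_zero]
      intro hm'
      exact h ((Int.floor_eq_iff.2 hm).symm.trans (Int.floor_eq_iff.2 hm'))
  rw [e]
  by_cases h : n = m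
  · subst h
    simp only [if_true]
    rw [integral_Ico_eq_integral_Ioo, ← integral_Ioc_eq_integral_Ioo,
      ← intervalIntegral.integral_of_le (by linarith), int_ex]
    simp [sub_eq_zero, eq_comm]
  · simp [h]

lemma span_sys : (Submodule.span ℂ (Set.range sys))ᗮ = ⊥ := by
  rw [Submodule.eq_bot_iff]
  intro f hf
  have h1 : ∀ n : ℤ, ∀ᵐ x : ℝ, x ∈ Set.Ioc (n : ℝ) (n + 1) → f x = 0 := fun n => by
    have hab : (n : ℝ) < n + 1 := by linarith
    have hm : MemLp f 2 (volume.restrict (Set.Ioc (n : ℝ) (n + 1))) := (Lp.memLp f).restrict _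
    have hs := hasSum_sq_fourierCoeffOn hab hm
    have h0 : ∀ k, fourierCoeffOn hab f k = 0 := fun k => by
      have := hf (sys (n, ⟨k, k, rfl⟩)) (Submodule.subset_span ⟨_, rfl⟩)
      rw [sys, inner_atom] at this
      rw [fourierCoeffOn_eq_integral]
      refine smul_eq_zero_of_right _ (Eq.trans ?_ this)
      congr 1
      funext x
      rw [fourier_coe_apply, ex, ← Complex.exp_conj, smul_eq_mul]
      congr 2
      simp only [map_mul, Complex.conj_ofReal, Complex.conj_I, map_ofNat]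
      push_cast
      ring
    simp only [h0, norm_zero, ne_eq, OfNat.ofNat_ne_zero, not_false_eq_true, zero_pow,
      add_sub_cancel_left, inv_one, one_smul] at hs
    have h2 := hs.unique hasSum_zero
    rw [intervalIntegral.integral_of_le hab.le, integral_eq_zero_iff_of_nonneg
      (fun x => by positivity) (hm.integrable_norm_pow two_ne_zero)] at h2
    filter_upwards [(ae_restrict_iff' measurableSet_Ioc).1 h2] with x hx hx'
    simpa using hx hx'
  refine Lp.ext ?_
  filter_upwards [ae_all_iff.2 h1, Lp.coeFn_zero ℂ 2 (volume : Measure ℝ)] with x hx h0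
  rw [h0]
  refine hx (⌈x⌉ - 1) ⟨?_, ?_⟩
  · push_cast; linarith [Int.ceil_lt_add_one x]
  · push_cast; linarith [Int.le_ceil x]

lemma ind_split (x : ℝ) (n : ℤ) :
    (Set.Ico (0 : ℝ) 2 ∪ Set.Ico 3 4).indicator (fun _ => (1 : ℂ)) (x - n) =
    (Set.Ico (n : ℝ) (n + 1)).indicator (fun _ => 1) x +
      (Set.Ico ((n + 1 : ℤ) : ℝ) ((n + 1 : ℤ) + 1)).indicator (fun _ => 1) x +
      (Set.Ico ((n + 1 + 1 + 1 : ℤ) : ℝ) ((n + 1 + 1 + 1 : ℤ) + 1)).indicator (fun _ => 1) x := by
  simp only [Set.indicator, Set.mem_union, Set.mem_Ico]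
  push_cast
  split_ifs <;> grind

lemma multi : MultiTiles (Set.Ico 0 2 ∪ Set.Ico 3 4) 3 := by
  refine ⟨measurableSet_Ico.union measurableSet_Ico,
    lt_of_lt_of_le (by simp) (measure_mono Set.subset_union_left),
    lt_of_le_of_lt (measure_union_le _ _) (by simp), Filter.Eventually.of_forall fun x => ?_⟩
  have : {n : ℤ | x - n ∈ Set.Ico (0 : ℝ) 2 ∪ Set.Ico 3 4} = {⌊x⌋ - 3, ⌊x⌋ - 1, ⌊x⌋} := by
    ext n
    simp only [Set.mem_ofPred_eq, Set.mem_union, Set.mem_Ico, Set.mem_insert_iff,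
      Set.mem_singleton_iff]
    rw [sub_nonneg, ← Int.le_floor, sub_lt_iff_lt_add', show (n : ℝ) + 2 = ((n + 2 : ℤ) : ℝ) by simp,
      ← Int.floor_lt, le_sub_iff_add_le', show (n : ℝ) + 3 = ((n + 3 : ℤ) : ℝ) by simp,
      ← Int.le_floor, sub_lt_iff_lt_add', show (n : ℝ) + 4 = ((n + 4 : ℤ) : ℝ) by simp,
      ← Int.floor_lt]
    omega
  rw [this, Set.encard_insert_of_notMem (by simp), Set.encard_pair (by omega)]
  rfl

/-- The set `[0,2) ∪ [3,4)` multi-tiles the line by `ℤ` at level three, and the Gabor system of its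
indicator over `ℤ × ℤ` is a Riesz basis of `L²(ℝ)`. -/
theorem result : ∃ Ω : Set ℝ, MultiTiles Ω 3 ∧ GaborRiesz Ω (Set.range (Int.cast : ℤ → ℝ)) := by
  refine ⟨_, multi, ?_⟩
  let e := HilbertBasis.mkOfOrthogonalEqBot orth_sys span_sys
  have he : ∀ p, e p = sys p := congrFun (HilbertBasis.coe_mkOfOrthogonalEqBot orth_sys span_sys)
  refine ⟨_, fun p => ?_, riesz_shift e ((Equiv.addRight 1).prodCongr (Equiv.refl _))⟩
  obtain ⟨n, g⟩ := p
  simp only [he, Equiv.prodCongr_apply, Prod.map, Equiv.coe_addRight, Equiv.coe_refl, id, sys]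
  filter_upwards [Lp.coeFn_add ((mem_atom n g).toLp _ + (mem_atom (n + 1) g).toLp _)
      ((mem_atom (n + 1 + 1 + 1) g).toLp _),
    Lp.coeFn_add ((mem_atom n g).toLp _) ((mem_atom (n + 1) g).toLp _), (mem_atom n g).coeFn_toLp,
    (mem_atom (n + 1) g).coeFn_toLp, (mem_atom (n + 1 + 1 + 1) g).coeFn_toLp] with x h1 h2 h3 h4 h5
  rw [h1, Pi.add_apply, h2, Pi.add_apply, h3, h4, h5, ind_split]
  simp only [atom, ex]
  ring

end Pool.Agent.Results.MP_9d6809_an.LevelThree
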