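import Mathlib
import Pool.Agent.Lib.helper29.RieszDefs

set_option autoImplicit false

namespace Pool.Agent.Results.MP_9d6809_an.NoRiesz

open MeasureTheory Pool.Agent.Lib.H29.Riesz

lemma multi : MultiTiles (Set.Ico 0 2) 2 := by
  refine ⟨measurableSet_Ico, by simp, by simp, Filter.Eventually.of_forall fun x => ?_⟩
  have : {n : ℤ | x - n ∈ Set.Ico (0 : ℝ) 2} = {⌊x⌋ - 1, ⌊x⌋} := by
    ext n
    simp only [Set.mem_ofPred_eq, Set.mem_Ico, Set.mem_insert_iff, Set.mem_singleton_iff]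
    rw [sub_nonneg, ← Int.le_floor, sub_lt_iff_lt_add', show (n : ℝ) + 2 = ((n + 2 : ℤ) : ℝ) by simp,
      ← Int.floor_lt]
    omega
  rw [this, Set.encard_pair (by omega)]
  rfl

lemma ind_split (x : ℝ) (n : ℤ) : (Set.Ico (0 : ℝ) 2).indicator (fun _ => (1 : ℂ)) (x - n) =
    (Set.Ico (n : ℝ) (n + 1)).indicator (fun _ => 1) x +
      (Set.Ico ((n + 1 : ℤ) : ℝ) ((n + 1 : ℤ) + 1)).indicator (fun _ => 1) x := by
  simp only [Set.indicator, Set.mem_Ico]
  push_cast
  split_ifs <;> grind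

/-- The interval `[0,2)` multi-tiles the line by `ℤ` at level two, and for no set `Γ` is the Gabor
system of its indicator over `ℤ × Γ` a Riesz basis of `L²(ℝ)`. -/
theorem result : ∃ Ω : Set ℝ, MultiTiles Ω 2 ∧ ∀ Γ : Set ℝ, ¬ GaborRiesz Ω Γ := by
  refine ⟨Set.Ico 0 2, multi, ?_⟩
  rintro Γ ⟨v, hv, e, T, hT⟩
  have fin : ∀ n : ℤ, volume (Set.Ico (n : ℝ) (n + 1)) ≠ ⊤ := fun n => by simp
  rcases Γ.eq_empty_or_nonempty with rfl | ⟨γ, hγ⟩
  · have h := e.hasSum_repr (indicatorConstLp 2 measurableSet_Ico (fin 0) (1 : ℂ))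
    have h0 := h.unique hasSum_empty
    have := congrArg norm h0
    rw [norm_indicatorConstLp (by norm_num) (by norm_num)] at this
    simp [Measure.real] at this
  · set c : ℝ → ℂ := fun x => Complex.exp (2 * Real.pi * Complex.I * ((γ * x : ℝ) : ℂ)) with hc
    have nc : ∀ x, ‖c x‖ = 1 := fun x => by
      rw [hc]
      simp only
      rw [show 2 * (Real.pi : ℂ) * Complex.I * ((γ * x : ℝ) : ℂ) =
        ((2 * Real.pi * (γ * x) : ℝ) : ℂ) * Complex.I by push_cast; ring]
      exact Complex.norm_exp_ofReal_mul_I _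
    have cc : Continuous c := by rw [hc]; fun_prop
    have mi : ∀ n : ℤ, MemLp ((Set.Ico (n : ℝ) (n + 1)).indicator fun _ => (1 : ℂ)) 2 volume :=
      fun n => memLp_indicator_const 2 measurableSet_Ico 1 (Or.inr (fin n))
    have mu : ∀ n : ℤ, MemLp (fun x => c x * (Set.Ico (n : ℝ) (n + 1)).indicator (fun _ => 1) x) 2
        volume := fun n => (mi n).of_le (cc.aestronglyMeasurable.mul (mi n).1)
          (Filter.Eventually.of_forall fun x => by rw [norm_mul, nc, one_mul])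
    let u : ℤ → Lp ℂ 2 (volume : Measure ℝ) := fun n => (mu n).toLp _
    have nu : ∀ n, ‖u n‖ ≤ 1 := fun n => by
      have : ‖u n‖ ≤ ‖indicatorConstLp 2 measurableSet_Ico (fin n) (1 : ℂ)‖ := by
        refine Lp.norm_le_norm_of_ae_le ?_
        filter_upwards [(mu n).coeFn_toLp,
          indicatorConstLp_coeFn (p := 2) (hs := measurableSet_Ico) (hμs := fin n) (c := (1 : ℂ))]
          with x h1 h2
        rw [h1, h2, norm_mul, nc, one_mul]
      rw [norm_indicatorConstLp (by norm_num) (by norm_num)] at this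
      simpa [Measure.real] using this
    have vu : ∀ n : ℤ, v (n, ⟨γ, hγ⟩) = u n + u (n + 1) := fun n => by
      refine Lp.ext ?_
      filter_upwards [hv (n, ⟨γ, hγ⟩), Lp.coeFn_add (u n) (u (n + 1)), (mu n).coeFn_toLp,
        (mu (n + 1)).coeFn_toLp] with x h1 h2 h3 h4
      rw [h1, h2, Pi.add_apply, h3, h4, ← mul_add]
      congr 1
      exact ind_split x n
    have tel : ∀ N : ℕ, ∑ n ∈ Finset.range N, (-1 : ℂ) ^ n • v ((n : ℤ), ⟨γ, hγ⟩) =
        u 0 - (-1 : ℂ) ^ N • u N := fun N => by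
      induction N with
      | zero => simp
      | succ N ih =>
        rw [Finset.sum_range_succ, ih, vu, pow_succ]
        push_cast
        module
    have bd : ∀ N : ℕ, ‖∑ n ∈ Finset.range N, (-1 : ℂ) ^ n • e ((n : ℤ), ⟨γ, hγ⟩)‖ ≤
        ‖(T.symm : Lp ℂ 2 (volume : Measure ℝ) →L[ℂ] Lp ℂ 2 (volume : Measure ℝ))‖ * 2 := fun N => by
      have : ∑ n ∈ Finset.range N, (-1 : ℂ) ^ n • e ((n : ℤ), ⟨γ, hγ⟩) =
          (T.symm : Lp ℂ 2 (volume : Measure ℝ) →L[ℂ] Lp ℂ 2 (volume : Measure ℝ))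
            (u 0 - (-1 : ℂ) ^ N • u N) := by
        rw [← tel, map_sum]
        simp [hT]
      rw [this]
      refine (ContinuousLinearMap.le_opNorm _ _).trans (mul_le_mul_of_nonneg_left ?_ (norm_nonneg _))
      refine (norm_sub_le _ _).trans ?_
      rw [norm_smul, norm_pow, norm_neg, norm_one, one_pow, one_mul]
      linarith [nu 0, nu N]
    have ho : Orthonormal ℂ fun n : ℕ => e ((n : ℤ), ⟨γ, hγ⟩) :=
      e.orthonormal.comp _ fun a b h => by simpa using h
    have sq : ∀ N : ℕ, ‖∑ n ∈ Finset.range N, (-1 : ℂ) ^ n • e ((n : ℤ), ⟨γ, hγ⟩)‖ ^ 2 = N :=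
      fun N => by
        have := ho.inner_sum (fun n => (-1 : ℂ) ^ n) (fun n => (-1 : ℂ) ^ n) (Finset.range N)
        rw [inner_self_eq_norm_sq_to_K] at this
        simp only [map_pow, map_neg, map_one, ← mul_pow, neg_mul_neg, mul_one, one_pow,
          Finset.sum_const, Finset.card_range, nsmul_eq_mul] at this
        apply Complex.ofReal_injective
        push_cast
        exact this
    obtain ⟨N, hN⟩ := exists_nat_gt
      ((‖(T.symm : Lp ℂ 2 (volume : Measure ℝ) →L[ℂ] Lp ℂ 2 (volume : Measure ℝ))‖ * 2) ^ 2)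
    have := pow_le_pow_left₀ (norm_nonneg _) (bd N) 2
    rw [sq] at this
    linarith

end Pool.Agent.Results.MP_9d6809_an.NoRiesz
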